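import Pool.Agent.X129.Trade8

/-!
# MP_c009d0_co: every `r ≥ 6` has the property, and for each `k` the possible `r` are `r ≥ R k`

Adding a passer (after adding a veto player, if there is a passer already) adds exactly one
shift-minimal winning type and does not change the trade robustness.  For `k ≥ 3` the tie game
with four types of weights `k², k²-1, k²-k, k²-k-1`, multiplicities `k-1, k, k+1, k`, quota
`k³-k` (at weight `k³-k` a coalition wins iff the number of its voters of the third type is not
`1`) is `k`-trade robust, not `(k+1)`-trade robust, and has at most six shift-minimal winning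
types; for `k = 2` the weights `7, 5, 3, 1`, multiplicities `1, 2, 3, 3` and quota `10` do.
-/

namespace Pool.Agent.Results.MP_c009d0_co.UpwardClosed

open Pool.Agent.X129.Trade

theorem mono {r s k : ℕ} (hrs : r ≤ s) (h : HasRob r k) : HasRob s k := by
  induction s, hrs using Nat.le_induction with
  | base => exact h
  | succ s _ ih => exact step_rob s k ih

/-- For every `k ≥ 2` there is a threshold `R ≤ 6` such that some complete simple game with
exactly `r` shift-minimal winning types is `k`-trade robust but not `(k+1)`-trade robust iff
`R ≤ r`.  In particular every `r ≥ 6` has the property in the question. -/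
theorem result : ∀ k : ℕ, 2 ≤ k → ∃ R : ℕ, R ≤ 6 ∧ ∀ r : ℕ, HasRob r k ↔ R ≤ r := by
  classical
  intro k hk
  have h6 : HasRob 6 k := hasRob_all 6 k le_rfl hk
  have hex : ∃ r, HasRob r k := ⟨6, h6⟩
  exact ⟨Nat.find hex, Nat.find_min' hex h6,
    fun r => ⟨fun h => Nat.find_min' hex h, fun h => mono h (Nat.find_spec hex)⟩⟩

end Pool.Agent.Results.MP_c009d0_co.UpwardClosed
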